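import Pool.Agent.H724.DL.Stm

/-! DL-PAT, DL-PD (project DL of helper724, MP_e695f0_lc). -/

set_option autoImplicit false

namespace Pool.Agent.H441.DL

open Pool.Agent.H724.DL

theorem pat_step {lam : ZMod 3} {p : ℕ → ZMod 3 × ZMod 5} (c0 : ZMod 5) (k : ℕ)
    (hk : c0 + ((k + 1 : ℕ) : ZMod 5) ∈ pset lam p (k + 1)) :
    c0 + (k : ZMod 5) ∈ pset lam p k ∧
      (c0 + ((k + 1 : ℕ) : ZMod 5) = 0 ∨ p k = (lam + 1, c0 + ((k + 1 : ℕ) : ZMod 5))) := by
  rw [pset, mem_upd] at hk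
  refine ⟨?_, hk.2⟩
  have h1 := hk.1
  have e : c0 + ((k + 1 : ℕ) : ZMod 5) - 1 = c0 + (k : ZMod 5) := by
    push_cast
    ring
  rwa [e] at h1

theorem pat_anti {lam : ZMod 3} {p : ℕ → ZMod 3 × ZMod 5} (c0 : ZMod 5) {k l : ℕ} (hkl : k ≤ l)
    (h : c0 + (l : ZMod 5) ∈ pset lam p l) : c0 + (k : ZMod 5) ∈ pset lam p k := by
  induction l, hkl using Nat.le_induction with
  | base => exact h
  | succ l _ ih => exact ih (pat_step c0 l h).1

theorem pat : S_PAT := by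
  intro lam p h
  obtain ⟨c0, hc0⟩ : ∃ c0 : ZMod 5, ∀ k : ℕ, c0 + (k : ZMod 5) ∈ pset lam p k := by
    by_contra hcon
    push Not at hcon
    choose K hK using hcon
    obtain ⟨c, hc⟩ := Finset.nonempty_iff_ne_empty.2 (h (Finset.univ.sup K))
    apply hK (c - ((Finset.univ.sup K : ℕ) : ZMod 5))
    apply pat_anti _ (Finset.le_sup (Finset.mem_univ _))
    rwa [sub_add_cancel]
  refine ⟨(c0 + 1).val, fun k hk => ?_⟩
  have e : (((c0 + 1).val + k : ℕ) : ZMod 5) = c0 + ((k + 1 : ℕ) : ZMod 5) := by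
    push_cast
    rw [ZMod.natCast_val, ZMod.cast_id]
    ring
  rw [e] at hk ⊢
  exact ((pat_step c0 k (hc0 (k + 1))).2).resolve_left hk

theorem mod_sub {a b M r s : ℕ} (hb : b * M ≤ a) (h : a % (5 * M) = r * M) (hs : s < 5)
    (hM : 0 < M) (hrs : (s + b) % 5 = r % 5) : (a - b * M) % (5 * M) = s * M := by
  have h1 := Nat.div_add_mod a (5 * M)
  rw [h] at h1
  set q := a / (5 * M)
  have h2 : a = (5 * q + r) * M := by
    rw [← h1]
    ring
  have h3 : b ≤ 5 * q + r := by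
    rw [h2] at hb
    exact Nat.le_of_mul_le_mul_right hb hM
  rw [h2, ← Nat.sub_mul, Nat.mul_mod_mul_right]
  congr 1
  omega

theorem pd (h : S_LOCK) : S_PD := by
  intro Γ W R n X Y m al be N hI hX hY
  have hM := pow5_pos m
  have e5 : 5 ^ (m + 1) = 5 * 5 ^ m := by rw [pow_succ]; ring
  constructor
  · intro i hi hmod
    obtain ⟨j0, hj0, hj⟩ := exists_ge_mod N be (5 ^ (m + 1)) (5 ^ m) (by rw [e5]; omega)
    have h1 : (i - 3 * 5 ^ m + al) % 5 ^ (m + 1) = 3 * 5 ^ m := by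
      have e : i - 3 * 5 ^ m + al = i + al - 3 * 5 ^ m := by omega
      rw [e, e5]
      rw [e5] at hmod
      exact mod_sub (r := 1) (by omega) (by rw [hmod, one_mul]) (by norm_num) hM (by norm_num)
    have h2 := h Γ W R n X Y m al be N (i - 3 * 5 ^ m) j0 (fun t => hI.nf _ _ t) hX hY (by omega)
      hj0 h1 hj _ _ (fun _ => rfl) (fun _ => rfl) 0
    have h3 := h2.2.2.2.1
    have e1 : i - 3 * 5 ^ m + 0 * 5 ^ (m + 1) + 3 * 5 ^ m = i := by omega
    have e2 : i - 3 * 5 ^ m + 0 * 5 ^ (m + 1) + 2 * 5 ^ m = i - 5 ^ m := by omega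
    rw [e1] at h3
    rw [h3]
    rw [e2]
  · intro j hj hmod
    obtain ⟨i0, hi0, hi⟩ := exists_ge_mod N al (5 ^ (m + 1)) (3 * 5 ^ m) (by rw [e5]; omega)
    have h1 : (j - 5 * 5 ^ m + be) % 5 ^ (m + 1) = 5 ^ m := by
      have e : j - 5 * 5 ^ m + be = j + be - 5 * 5 ^ m := by omega
      rw [e, e5]
      rw [e5] at hmod
      have := mod_sub (r := 1) (s := 1) (b := 5) (M := 5 ^ m) (a := j + be) (by omega)
        (by rw [hmod, one_mul]) (by norm_num) hM (by norm_num)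
      rwa [one_mul] at this
    have h2 := h Γ W R n X Y m al be N i0 (j - 5 * 5 ^ m) (fun t => hI.nf _ _ t) hX hY hi0
      (by omega) hi h1 _ _ (fun _ => rfl) (fun _ => rfl) 0
    have h3 := h2.2.2.2.2.1
    have e1 : j - 5 * 5 ^ m + 0 * 5 ^ (m + 1) + 5 * 5 ^ m = j := by omega
    have e2 : j - 5 * 5 ^ m + 0 * 5 ^ (m + 1) + 4 * 5 ^ m = j - 5 ^ m := by omega
    rw [e1] at h3
    rw [h3]
    rw [e2]

end Pool.Agent.H441.DL
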